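import Pool.Agent.helper76.DP.Spec

set_option autoImplicit false

namespace Pool.Agent.DP

open Finset

theorem CRL_nonneg (a b n : ℕ) : 0 ≤ ∏ p ∈ n.primeFactors, (if p ∣ 2 * a * b then (p : ℝ) / (p - 1) else 1 - 1 / ((p : ℝ) - 1) ^ 2) := by
  apply Finset.prod_nonneg
  intro p hp
  have hpp := Nat.prime_of_mem_primeFactors hp
  have h2 : (2 : ℝ) ≤ p := by exact_mod_cast hpp.two_le
  split_ifs with h
  · apply div_nonneg <;> linarith
  · have h3 : p ≠ 2 := by
      rintro rfl
      exact h (Dvd.intro (a * b) (by ring))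
    have h4 : (3 : ℝ) ≤ p := by
      have : 3 ≤ p := by have := hpp.two_le; omega
      exact_mod_cast this
    have h5 : 1 / ((p : ℝ) - 1) ^ 2 ≤ 1 := by
      rw [div_le_one (by nlinarith)]
      nlinarith
    linarith

theorem CRL (hCRM : CRM_stmt) (hCRP : CRP_stmt) : CRL_stmt := by
  intro Q a b hQ κ ha hb hab
  revert hQ
  induction Q using Nat.recOnPosPrimePosCoprime with
  | zero => intro hQ; exact absurd rfl hQ.out
  | one =>
    intro hQ _ _
    have h1 : 1 ≤ Nu 1 a b (κ : ZMod 1) := by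
      unfold Nu
      rw [Nat.one_le_iff_ne_zero, Finset.card_ne_zero]
      exact ⟨(1, 1), by simp [eq_iff_true_of_subsingleton]⟩
    have h2 : (1 : ℝ) ≤ Nu 1 a b (κ : ZMod 1) := by exact_mod_cast h1
    simpa using h2
  | prime_pow p n hp hn =>
    intro hQ h1 h2
    have h3 := hCRP p n a b κ hp hn ha hb hab (h1 p hp (dvd_pow_self p hn.ne')) (by
      rintro rfl h
      exact h2 (dvd_pow_self 2 hn.ne') h)
    rw [Nat.primeFactors_prime_pow hn.ne' hp, Finset.prod_singleton]
    exact h3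
  | coprime m n hm hn hmn ihm ihn =>
    intro hQ h1 h2
    have im : NeZero m := ⟨by omega⟩
    have hin : NeZero n := ⟨by omega⟩
    have e1 := ihm (fun p hp hpm => h1 p hp (hpm.mul_right n)) (fun h => h2 (h.mul_right n))
    have e2 := ihn (fun p hp hpn => h1 p hp (hpn.mul_left m)) (fun h => h2 (h.mul_left m))
    rw [hCRM m n a b κ hmn, Nat.totient_mul hmn, Nat.Coprime.primeFactors_mul hmn,
      Finset.prod_union (Nat.Coprime.disjoint_primeFactors hmn)]
    have q1 := CRL_nonneg a b m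
    have q2 := CRL_nonneg a b n
    push_cast
    calc _ = ((Nat.totient m : ℝ) ^ 2 * ∏ p ∈ m.primeFactors, (if p ∣ 2 * a * b then (p : ℝ) / (p - 1) else 1 - 1 / ((p : ℝ) - 1) ^ 2)) *
          ((Nat.totient n : ℝ) ^ 2 * ∏ p ∈ n.primeFactors, (if p ∣ 2 * a * b then (p : ℝ) / (p - 1) else 1 - 1 / ((p : ℝ) - 1) ^ 2)) := by ring
      _ ≤ ((m : ℝ) * Nu m a b (κ : ZMod m)) * ((n : ℝ) * Nu n a b (κ : ZMod n)) :=
          mul_le_mul e1 e2 (by positivity) (by positivity)
      _ = _ := by ring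

end Pool.Agent.DP
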